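import Pool.Agent.Helper89.EX.Defs
import Pool.Agent.Helper89.EX.IC

/-!
# MP_5176ab_co: module LW, lower bounds and the crosscut number
-/

set_option autoImplicit false

namespace EX

open Finset SimpleGraph Filter Topology

open scoped Classical

noncomputable section

theorem exr_bdd {W : Type} (r n : ℕ) (F : Finset (Finset W)) :
    BddAbove {m | ∃ H : Finset (Finset (Fin n)), (∀ E ∈ H, E.card = r) ∧ ¬ Contains H F ∧
      H.card = m} := by
  refine ⟨Fintype.card (Finset (Fin n)), ?_⟩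
  rintro m ⟨H, -, -, rfl⟩
  exact Finset.card_le_univ H

theorem le_exr {W : Type} {r n : ℕ} {F : Finset (Finset W)} (H : Finset (Finset (Fin n)))
    (h1 : ∀ E ∈ H, E.card = r) (h2 : ¬ Contains H F) : H.card ≤ exr r n F :=
  le_csSup (exr_bdd r n F) ⟨H, h1, h2, rfl⟩

theorem crosscutNumber_le {W : Type} {F : Finset (Finset W)} {X : Finset W}
    (h : IsCrosscut F X) : crosscutNumber F ≤ X.card :=
  Nat.sInf_le ⟨X, h, rfl⟩

theorem lower_crosscut {W : Type} (F : Finset (Finset W)) (r n : ℕ) (hr : 1 ≤ r)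
    (hn : crosscutNumber F - 1 ≤ n) (h1 : 1 ≤ crosscutNumber F) :
    (crosscutNumber F - 1) * (n - (crosscutNumber F - 1)).choose (r - 1) ≤ exr r n F := by
  obtain ⟨C, hC⟩ : ∃ C : Finset (Fin n), C.card = crosscutNumber F - 1 := by
    have : crosscutNumber F - 1 ≤ (univ : Finset (Fin n)).card := by simpa using hn
    obtain ⟨C, -, hC⟩ := Finset.exists_subset_card_eq this
    exact ⟨C, hC⟩
  set H : Finset (Finset (Fin n)) := univ.filter fun E => E.card = r ∧ (E ∩ C).card = 1 with hH
  have hle : H.card ≤ exr r n F := by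
    refine le_exr H (fun E hE => (Finset.mem_filter.1 hE).2.1) ?_
    rintro ⟨f, hf⟩
    have hX : IsCrosscut F (C.preimage f f.injective.injOn) := by
      intro E hE
      have h2 := (Finset.mem_filter.1 (hf E hE)).2.2
      rw [← h2]
      have : E.map f ∩ C = (E ∩ C.preimage f f.injective.injOn).map f := by
        ext x
        simp only [Finset.mem_inter, Finset.mem_map, Finset.mem_preimage]
        constructor
        · rintro ⟨⟨y, hy, rfl⟩, hx⟩
          exact ⟨y, ⟨hy, hx⟩, rfl⟩
        · rintro ⟨y, ⟨hy, hx⟩, rfl⟩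
          exact ⟨⟨y, hy, rfl⟩, hx⟩
      rw [this, Finset.card_map]
    have h3 := crosscutNumber_le hX
    have h4 : (C.preimage f f.injective.injOn).card ≤ C.card := by
      have : ((C.preimage f f.injective.injOn).map f).card ≤ C.card := by
        apply Finset.card_le_card
        intro x hx
        obtain ⟨y, hy, rfl⟩ := Finset.mem_map.1 hx
        exact Finset.mem_preimage.1 hy
      simpa using this
    omega
  refine le_trans ?_ hle
  have hcard : (C ×ˢ (Finset.powersetCard (r - 1) Cᶜ)).card =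
      (crosscutNumber F - 1) * (n - (crosscutNumber F - 1)).choose (r - 1) := by
    rw [Finset.card_product, Finset.card_powersetCard, Finset.card_compl, Fintype.card_fin, hC]
  rw [← hcard]
  refine Finset.card_le_card_of_injOn (fun p => insert p.1 p.2) ?_ ?_
  · rintro ⟨c, S⟩ hp
    obtain ⟨hc, hS⟩ := Finset.mem_product.1 hp
    obtain ⟨hS1, hS2⟩ := Finset.mem_powersetCard.1 hS
    simp only at hc hS1 hS2
    have hcS : c ∉ S := fun h => (Finset.mem_compl.1 (hS1 h)) hc
    have : insert c S ∈ H := by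
      refine Finset.mem_filter.2 ⟨Finset.mem_univ _, ?_, ?_⟩
      · rw [Finset.card_insert_of_notMem hcS, hS2]; omega
      · rw [Finset.card_eq_one]
        refine ⟨c, ?_⟩
        ext x
        simp only [Finset.mem_inter, Finset.mem_insert, Finset.mem_singleton]
        constructor
        · rintro ⟨rfl | hx, hxC⟩
          · rfl
          · exact absurd hxC (Finset.mem_compl.1 (hS1 hx))
        · rintro rfl
          exact ⟨Or.inl rfl, hc⟩
    exact this
  · rintro ⟨c, S⟩ hp ⟨c', S'⟩ hp' heq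
    obtain ⟨hc, hS⟩ := Finset.mem_product.1 hp
    obtain ⟨hS1, hS2⟩ := Finset.mem_powersetCard.1 hS
    obtain ⟨hc', hS'⟩ := Finset.mem_product.1 hp'
    obtain ⟨hS1', hS2'⟩ := Finset.mem_powersetCard.1 hS'
    simp only at hc hS1 hS2 hc' hS1' hS2' heq
    have hcS : c ∉ S := fun h => (Finset.mem_compl.1 (hS1 h)) hc
    have hcS' : c' ∉ S' := fun h => (Finset.mem_compl.1 (hS1' h)) hc'
    have hcc : c = c' := by
      have : c ∈ insert c' S' := by rw [← heq]; exact Finset.mem_insert_self _ _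
      rcases Finset.mem_insert.1 this with h | h
      · exact h
      · exact absurd hc (Finset.mem_compl.1 (hS1' h))
    subst hcc
    have : S = S' := by
      rw [← Finset.erase_insert hcS, heq, Finset.erase_insert hcS']
    rw [this]

theorem inl_mem_xEdge {U : Type} [Fintype U] (r : ℕ) (G : SimpleGraph U) (e : G.edgeSet)
    (u : U) : (Sum.inl u : XV r G) ∈ xEdge r G e ↔ u ∈ (e : Sym2 U) := by
  simp [xEdge]

theorem inr_mem_xEdge {U : Type} [Fintype U] (r : ℕ) (G : SimpleGraph U) (e : G.edgeSet)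
    (q : G.edgeSet × Fin (r - 2)) : (Sum.inr q : XV r G) ∈ xEdge r G e ↔ q.1 = e := by
  simp [xEdge]

theorem exK_le_exr {U : Type} [Fintype U] (r n : ℕ) (hr : 2 ≤ r) (G : SimpleGraph U) :
    exK n r G ≤ exr r n (expansion r G) := by
  refine csSup_le' ?_
  rintro m ⟨K, hK, rfl⟩
  refine le_exr _ (fun E hE => (mem_cliqueFinset_iff.1 hE).card_eq) ?_
  rintro ⟨f, hf⟩
  apply hK
  refine ⟨⟨⟨fun u => f (Sum.inl u), ?_⟩, ?_⟩⟩
  · intro u v huv
    have h1 := hf (xEdge r G ⟨s(u, v), huv⟩) (Finset.mem_image_of_mem _ (Finset.mem_univ _))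
    have h2 := (mem_cliqueFinset_iff.1 h1).isClique
    apply h2
    · have : (Sum.inl u : XV r G) ∈ xEdge r G ⟨s(u, v), huv⟩ :=
        (inl_mem_xEdge r G _ u).2 (Sym2.mem_mk_left u v)
      exact Finset.mem_coe.2 (Finset.mem_map_of_mem f this)
    · have : (Sum.inl v : XV r G) ∈ xEdge r G ⟨s(u, v), huv⟩ :=
        (inl_mem_xEdge r G _ v).2 (Sym2.mem_mk_right u v)
      exact Finset.mem_coe.2 (Finset.mem_map_of_mem f this)
    · intro h
      have := f.injective h
      exact huv.ne (Sum.inl_injective this)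
  · intro u v h
    exact Sum.inl_injective (f.injective h)

/-- the crosscut of the expansion given by an independent set -/
def xcut {U : Type} [Fintype U] (r : ℕ) (hr : 3 ≤ r) (G : SimpleGraph U) (I : Finset U) :
    Finset (XV r G) :=
  univ.filter fun x => Sum.elim (fun u => u ∈ I)
    (fun q => (∀ u ∈ I, u ∉ (q.1 : Sym2 U)) ∧ q.2 = ⟨0, by omega⟩) x

theorem xcut_isCrosscut {U : Type} [Fintype U] (r : ℕ) (hr : 3 ≤ r) (G : SimpleGraph U)
    (I : Finset U) (hI : ∀ u ∈ I, ∀ v ∈ I, ¬ G.Adj u v) :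
    IsCrosscut (expansion r G) (xcut r hr G I) := by
  intro E hE
  obtain ⟨e, -, rfl⟩ := Finset.mem_image.1 hE
  rw [Finset.card_eq_one]
  by_cases h : ∀ u ∈ I, u ∉ (e : Sym2 U)
  · refine ⟨Sum.inr (e, ⟨0, by omega⟩), ?_⟩
    ext x
    rcases x with u | q
    · simp only [Finset.mem_inter, inl_mem_xEdge, xcut, Finset.mem_filter, Finset.mem_univ,
        true_and, Sum.elim_inl, Finset.mem_singleton, reduceCtorEq, iff_false, not_and]
      intro h1 h2
      exact h u h2 h1
    · simp only [Finset.mem_inter, inr_mem_xEdge, xcut, Finset.mem_filter, Finset.mem_univ,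
        true_and, Sum.elim_inr, Finset.mem_singleton, Sum.inr.injEq]
      constructor
      · rintro ⟨h1, -, h2⟩
        exact Prod.ext h1 h2
      · rintro rfl
        exact ⟨rfl, h, rfl⟩
  · push Not at h
    obtain ⟨u, hu, hue⟩ := h
    refine ⟨Sum.inl u, ?_⟩
    ext x
    rcases x with v | q
    · simp only [Finset.mem_inter, inl_mem_xEdge, xcut, Finset.mem_filter, Finset.mem_univ,
        true_and, Sum.elim_inl, Finset.mem_singleton, Sum.inl.injEq]
      constructor
      · rintro ⟨h1, h2⟩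
        by_contra hne
        have he : (e : Sym2 U) = s(v, u) := ((Sym2.mem_and_mem_iff hne).1 ⟨h1, hue⟩)
        have : G.Adj v u := by
          rw [← SimpleGraph.mem_edgeSet, ← he]
          exact e.2
        exact hI v h2 u hu this
      · rintro rfl
        exact ⟨hue, hu⟩
    · simp only [Finset.mem_inter, inr_mem_xEdge, xcut, Finset.mem_filter, Finset.mem_univ,
        true_and, Sum.elim_inr, Finset.mem_singleton, reduceCtorEq, iff_false, not_and]
      rintro h1 h2
      exact absurd (h1 ▸ hue) (h2 u hu)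

theorem xcut_card {U : Type} [Fintype U] (r : ℕ) (hr : 3 ≤ r) (G : SimpleGraph U)
    (I : Finset U) : (xcut r hr G I).card ≤ cost G I := by
  have hsub : xcut r hr G I ⊆ I.image Sum.inl ∪
      (univ.filter fun q : G.edgeSet × Fin (r - 2) =>
        (∀ u ∈ I, u ∉ (q.1 : Sym2 U)) ∧ q.2 = ⟨0, by omega⟩).image Sum.inr := by
    intro x hx
    rcases x with u | q
    · refine Finset.mem_union_left _ (Finset.mem_image_of_mem _ ?_)
      simpa [xcut] using hx
    · refine Finset.mem_union_right _ (Finset.mem_image_of_mem _ ?_)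
      simpa [xcut] using hx
  refine (Finset.card_le_card hsub).trans ((Finset.card_union_le _ _).trans ?_)
  refine Nat.add_le_add Finset.card_image_le (Finset.card_image_le.trans ?_)
  refine Finset.card_le_card_of_injOn (fun q => (q.1 : Sym2 U)) ?_ ?_
  · intro q hq
    obtain ⟨-, h1, h2⟩ := Finset.mem_filter.1 hq
    refine Finset.mem_filter.2 ⟨?_, h1⟩
    rw [SimpleGraph.mem_edgeFinset]
    exact q.1.2
  · intro q hq q' hq' h
    obtain ⟨-, -, h2⟩ := Finset.mem_filter.1 hq
    obtain ⟨-, -, h2'⟩ := Finset.mem_filter.1 hq'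
    refine Prod.ext (Subtype.ext h) (h2.trans h2'.symm)

theorem crosscut_le_cost {U : Type} [Fintype U] (r : ℕ) (hr : 3 ≤ r) (G : SimpleGraph U)
    (I : Finset U) (hI : ∀ u ∈ I, ∀ v ∈ I, ¬ G.Adj u v) :
    crosscutNumber (expansion r G) ≤ cost G I :=
  (crosscutNumber_le (xcut_isCrosscut r hr G I hI)).trans (xcut_card r hr G I)

theorem exists_opt {U : Type} [Fintype U] (r : ℕ) (hr : 3 ≤ r) (G : SimpleGraph U) :
    ∃ I : Finset U, (∀ u ∈ I, ∀ v ∈ I, ¬ G.Adj u v) ∧
      cost G I = crosscutNumber (expansion r G) := by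
  have hne : {m | ∃ X : Finset (XV r G), IsCrosscut (expansion r G) X ∧ X.card = m}.Nonempty :=
    ⟨_, xcut r hr G ∅, xcut_isCrosscut r hr G ∅ (by simp), rfl⟩
  obtain ⟨X, hX, hXc⟩ : ∃ X : Finset (XV r G), IsCrosscut (expansion r G) X ∧
      X.card = crosscutNumber (expansion r G) := Nat.sInf_mem hne
  have hXe : ∀ e : G.edgeSet, (xEdge r G e ∩ X).card = 1 := fun e => by
    exact (congrArg Finset.card (ic_inter _ _ _ _)).trans
      (hX (xEdge r G e) (Finset.mem_image_of_mem _ (Finset.mem_univ e)))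
  set I : Finset U := univ.filter fun u => (Sum.inl u : XV r G) ∈ X with hIdef
  have hI : ∀ u ∈ I, ∀ v ∈ I, ¬ G.Adj u v := by
    intro u hu v hv huv
    have h1 := hXe ⟨s(u, v), huv⟩
    obtain ⟨x, hx⟩ := Finset.card_eq_one.1 h1
    have h2 : (Sum.inl u : XV r G) ∈ xEdge r G ⟨s(u, v), huv⟩ ∩ X :=
      Finset.mem_inter.2 ⟨(inl_mem_xEdge r G _ u).2 (Sym2.mem_mk_left u v),
        (Finset.mem_filter.1 hu).2⟩
    have h3 : (Sum.inl v : XV r G) ∈ xEdge r G ⟨s(u, v), huv⟩ ∩ X :=
      Finset.mem_inter.2 ⟨(inl_mem_xEdge r G _ v).2 (Sym2.mem_mk_right u v),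
        (Finset.mem_filter.1 hv).2⟩
    rw [hx, Finset.mem_singleton] at h2 h3
    exact huv.ne (Sum.inl_injective (h2.trans h3.symm))
  refine ⟨I, hI, le_antisymm ?_ (crosscut_le_cost r hr G I hI)⟩
  rw [← hXc]
  -- for every edge avoiding `I`, a new vertex in `X`
  have hch : ∀ e : G.edgeSet, (∀ u ∈ I, u ∉ (e : Sym2 U)) →
      ∃ i : Fin (r - 2), (Sum.inr (e, i) : XV r G) ∈ X := by
    intro e he
    obtain ⟨x, hx⟩ := Finset.card_eq_one.1 (hXe e)
    have hxm : x ∈ xEdge r G e ∩ X := by rw [hx]; exact Finset.mem_singleton_self _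
    obtain ⟨hx1, hx2⟩ := Finset.mem_inter.1 hxm
    rcases x with u | ⟨e', i⟩
    · exact absurd ((inl_mem_xEdge r G e u).1 hx1)
        (he u (Finset.mem_filter.2 ⟨Finset.mem_univ _, hx2⟩))
    · have h := (inr_mem_xEdge r G e (e', i)).1 hx1
      simp only at h
      subst h
      exact ⟨i, hx2⟩
  have hsub : I.card + (G.edgeFinset.filter fun e => ∀ u ∈ I, u ∉ e).card =
      (I.disjSum (G.edgeFinset.filter fun e => ∀ u ∈ I, u ∉ e)).card := by
    rw [Finset.card_disjSum]
  rw [cost, hsub]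
  have himg : I.disjSum (G.edgeFinset.filter fun e => ∀ u ∈ I, u ∉ e) ⊆
      X.image (fun x => Sum.elim (fun u => (Sum.inl u : U ⊕ Sym2 U))
        (fun q => Sum.inr (q.1 : Sym2 U)) x) := by
    intro y hy
    rcases y with u | e
    · have hu : u ∈ I := Finset.inl_mem_disjSum.1 hy
      exact Finset.mem_image.2 ⟨Sum.inl u, (Finset.mem_filter.1 hu).2, rfl⟩
    · have he := Finset.inr_mem_disjSum.1 hy
      obtain ⟨he1, he2⟩ := Finset.mem_filter.1 he
      obtain ⟨i, hi⟩ := hch ⟨e, (SimpleGraph.mem_edgeFinset.1 he1)⟩ he2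
      exact Finset.mem_image.2 ⟨_, hi, rfl⟩
  exact (Finset.card_le_card himg).trans Finset.card_image_le

end

end EX
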